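import Mathlib

/-!
# MP_993e82_nt: pseudo-automorphisms of a cubic norm form

All pairs `(f, h)` with `h (T (x, y, z)) = T (f x, f y, f z)` on `ℤ ^ 3`: either `f n = c n` for a
complex constant `c`, or `f` is constant.

Proof: the symmetries `T (x, -z, y - z) = T (x, y, z)` (Galois action) and
`T (2 y - z, x + z, y) = - T (x, y, z)` (multiplication by the unit `α`).
-/

set_option autoImplicit false

namespace Pool.Agent.Results.MP_993e82_nt.PseudoAutomorphisms

/-- The norm form `N(x + y α + z α')`, `α ^ 3 - 3 α + 1 = 0`, `α' = α ^ 2 - 2`, as a polynomial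
expression over any commutative ring. -/
def T {R : Type*} [CommRing R] (x y z : R) : R :=
  x ^ 3 - 3 * x * y ^ 2 - 3 * x * z ^ 2 + 3 * x * y * z - y ^ 3 + 6 * y ^ 2 * z - 3 * y * z ^ 2
    - z ^ 3

/-- The condition `(*)`. -/
def IsPair (f h : ℤ → ℂ) : Prop :=
  ∀ x y z : ℤ, h (T x y z) = T (f x) (f y) (f z)

section

variable {f h : ℤ → ℂ}

lemma galois (H : IsPair f h) (x y z : ℤ) :
    T (f x) (f (-z)) (f (y - z)) = T (f x) (f y) (f z) := by
  rw [← H, ← H]
  congr 1
  simp only [T]
  ring

lemma unit_sq (H : IsPair f h) (x y z : ℤ) :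
    T (f (z - 2 * y)) (f (-x - z)) (f (-y)) = T (f x) (f y) (f z) := by
  rw [← H, ← H]
  congr 1
  simp only [T]
  ring

/-- If `f 0 ≠ 0` then `f` is constant. -/
lemma const_of_ne (H : IsPair f h) (h0 : f 0 ≠ 0) : ∀ n, f n = f 0 := by
  set c := f 0 with hc
  have h1 : ∀ w, f w = 0 ∨ f w = c := by
    intro w
    have h2 := galois H 0 w 0
    simp only [neg_zero, sub_zero, ← hc, T] at h2
    have h3 : c * f w * (c - f w) = 0 := by linear_combination (1 / 9 : ℂ) * h2
    rcases mul_eq_zero.1 h3 with h4 | h4
    · rcases mul_eq_zero.1 h4 with h5 | h5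
      · exact absurd h5 h0
      · exact Or.inl h5
    · right
      exact (sub_eq_zero.1 h4).symm
  intro n
  rcases h1 n with h2 | h2
  · exfalso
    -- use the Galois symmetry with `x = y = 0`, `z = n`
    have h3 := galois H 0 0 n
    simp only [zero_sub, ← hc, h2, T] at h3
    rcases h1 (-n) with h4 | h4
    · rw [h4] at h3
      apply h0
      have h5 : c ^ 3 = 0 := by linear_combination (1 / 4 : ℂ) * h3
      exact pow_eq_zero_iff (three_ne_zero) |>.1 h5
    · rw [h4] at h3
      apply h0
      have h5 : c ^ 3 = 0 := by linear_combination (1 / 2 : ℂ) * h3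
      exact pow_eq_zero_iff (three_ne_zero) |>.1 h5
  · exact h2

lemma odd_of_zero (H : IsPair f h) (h0 : f 0 = 0) (z : ℤ) : f (-z) = - f z := by
  have h1 := galois H 0 z z
  have h2 := galois H z z z
  simp only [sub_self, h0, T] at h1 h2
  -- `h1 : - b ^ 3 = a ^ 3`, `h2 : a b ^ 2 = a ^ 3`
  by_cases ha : f z = 0
  · rw [ha] at h1 ⊢
    have h5 : f (-z) ^ 3 = 0 := by linear_combination -h1
    rw [pow_eq_zero_iff (three_ne_zero)] at h5
    rw [h5]
    simp
  · have h3 : f z * ((f (-z) - f z) * (f (-z) + f z)) = 0 := by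
      linear_combination (-1 / 3 : ℂ) * h2 + (1 / 3 : ℂ) * h1
    rcases mul_eq_zero.1 h3 with h4 | h4
    · exact absurd h4 ha
    · rcases mul_eq_zero.1 h4 with h5 | h5
      · exfalso
        have h6 : f (-z) = f z := sub_eq_zero.1 h5
        rw [h6] at h1
        have h7 : f z ^ 3 = 0 := by linear_combination (-1 / 2 : ℂ) * h1
        rw [pow_eq_zero_iff (three_ne_zero)] at h7
        exact ha h7
      · linear_combination h5

lemma unit_mul (H : IsPair f h) (h0 : f 0 = 0) (x y z : ℤ) :
    T (f (2 * y - z)) (f (x + z)) (f y) = - T (f x) (f y) (f z) := by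
  have h1 := unit_sq H x y z
  have e1 : z - 2 * y = -(2 * y - z) := by ring
  have e2 : -x - z = -(x + z) := by ring
  rw [e1, e2, odd_of_zero H h0, odd_of_zero H h0, odd_of_zero H h0 y] at h1
  rw [← h1]
  simp only [T]
  ring

lemma double (H : IsPair f h) (h0 : f 0 = 0) (y : ℤ) : f (2 * y) = 2 * f y := by
  have h1 := unit_mul H h0 0 y 0
  have h2 := unit_mul H h0 (-y) y 0
  simp only [sub_zero, add_zero, h0, odd_of_zero H h0 y, T] at h1 h2
  have h3 : (f (2 * y) - 2 * f y) * (f (2 * y) + f y) ^ 2 = 0 := by linear_combination h1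
  rcases mul_eq_zero.1 h3 with h4 | h4
  · exact sub_eq_zero.1 h4
  · have h5 : f (2 * y) = - f y := by
      have := pow_eq_zero_iff (two_ne_zero) |>.1 h4
      linear_combination this
    rw [h5] at h2 ⊢
    have h6 : f y ^ 3 = 0 := by linear_combination (1 / 18 : ℂ) * h2
    rw [pow_eq_zero_iff (three_ne_zero)] at h6
    rw [h6]
    simp

/-- The dichotomy for `f (x + z)`. -/
lemma dich (H : IsPair f h) (h0 : f 0 = 0) {w : ℤ} (hw : f w ≠ 0) (x z : ℤ) :
    f (x + z) = f x + f z ∨ (f x = f z ∧ f (x + z) = - f x) ∨
      (f x = - 2 * f z ∧ f (x + z) = 2 * f z) := by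
  have h1 := galois H 0 x (-z)
  have h2 := galois H w x (-z)
  simp only [neg_neg, sub_neg_eq_add, h0, odd_of_zero H h0 z, T] at h1 h2
  have h3 : f w * ((f (x + z) + f x) * (f (x + z) - f x - f z)) = 0 := by
    linear_combination (-1 / 3 : ℂ) * h2 + (1 / 3 : ℂ) * h1
  rcases mul_eq_zero.1 h3 with h4 | h4
  · exact absurd h4 hw
  · rcases mul_eq_zero.1 h4 with h5 | h5
    · have h6 : f (x + z) = - f x := by linear_combination h5
      rw [h6] at h1
      have h7 : (f x - f z) * ((2 * f x + f z) * (f x + 2 * f z)) = 0 := by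
        linear_combination h1
      rcases mul_eq_zero.1 h7 with h8 | h8
      · right; left
        exact ⟨sub_eq_zero.1 h8, h6⟩
      · rcases mul_eq_zero.1 h8 with h9 | h9
        · left
          rw [h6]
          linear_combination -h9
        · right; right
          refine ⟨by linear_combination h9, ?_⟩
          rw [h6]
          linear_combination -h9
    · left
      linear_combination h5

lemma additive (H : IsPair f h) (h0 : f 0 = 0) {w : ℤ} (hw : f w ≠ 0) (x z : ℤ) :
    f (x + z) = f x + f z := by
  have hz2 := double H h0 z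
  rcases dich H h0 hw x z with h1 | ⟨h1, h2⟩ | ⟨h1, h2⟩
  · exact h1
  · -- `f x = f z`, `f (x + z) = - f x`
    have hz0 : f z = 0 := by
      by_contra hne
      have h3 : f (3 * z) = 3 * f z := by
        have e1 : 3 * z = 2 * z + z := by ring
        rw [e1]
        rcases dich H h0 hw (2 * z) z with h4 | ⟨h4, h5⟩ | ⟨h4, h5⟩
        · rw [h4, hz2]; ring
        · exfalso
          apply hne
          rw [hz2] at h4
          linear_combination h4
        · exfalso
          apply hne
          rw [hz2] at h4
          linear_combination (1 / 4 : ℂ) * h4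
      have h6 := unit_mul H h0 x (-z) z
      have e2 : 2 * -z - z = -(3 * z) := by ring
      rw [e2, odd_of_zero H h0 (3 * z), odd_of_zero H h0 z, h3, h2, h1] at h6
      simp only [T] at h6
      have h7 : f z ^ 3 = 0 := by linear_combination (-1 / 18 : ℂ) * h6
      rw [pow_eq_zero_iff (three_ne_zero)] at h7
      exact hne h7
    rw [h2, h1, hz0]
    simp
  · -- `f x = - 2 f z`, `f (x + z) = 2 f z`
    have hz0 : f z = 0 := by
      by_contra hne
      have h3 : f (x + 2 * z) = 3 * f z := by
        have e1 : x + 2 * z = x + z + z := by ring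
        rw [e1]
        rcases dich H h0 hw (x + z) z with h4 | ⟨h4, h5⟩ | ⟨h4, h5⟩
        · rw [h4, h2]; ring
        · exfalso
          apply hne
          rw [h2] at h4
          linear_combination h4
        · exfalso
          apply hne
          rw [h2] at h4
          linear_combination (1 / 4 : ℂ) * h4
      have h4 : f (x + 2 * z) = 0 := by
        rcases dich H h0 hw x (2 * z) with h4 | ⟨h4, h5⟩ | ⟨h4, h5⟩
        · rw [h4, hz2, h1]; ring
        · exfalso
          apply hne
          rw [h1, hz2] at h4
          linear_combination (-1 / 4 : ℂ) * h4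
        · exfalso
          apply hne
          rw [h1, hz2] at h4
          linear_combination (1 / 2 : ℂ) * h4
      apply hne
      rw [h3] at h4
      linear_combination (1 / 3 : ℂ) * h4
    rw [h2, h1, hz0]
    simp

end

/-- **All pseudo-automorphisms of the cubic norm form `T`.** -/
theorem result (f h : ℤ → ℂ) :
    IsPair f h ↔
      (∃ c : ℂ, (∀ n : ℤ, f n = c * n) ∧
        ∀ x y z : ℤ, h (T x y z) = c ^ 3 * ((T x y z : ℤ) : ℂ)) ∨
      (∃ c : ℂ, (∀ n : ℤ, f n = c) ∧ ∀ x y z : ℤ, h (T x y z) = - c ^ 3) := by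
  constructor
  · intro H
    by_cases h0 : f 0 = 0
    · by_cases hall : ∀ n, f n = 0
      · right
        refine ⟨0, hall, ?_⟩
        intro x y z
        rw [H, hall, hall, hall]
        simp only [T]
        ring
      · left
        push Not at hall
        obtain ⟨w, hw⟩ := hall
        let g : ℤ →+ ℂ :=
          { toFun := f
            map_zero' := h0
            map_add' := additive H h0 hw }
        have hg : ∀ n : ℤ, f n = f 1 * n := by
          intro n
          have h1 : g (n • (1 : ℤ)) = n • g 1 := map_zsmul g n 1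
          have h2 : g n = n • g 1 := by simpa using h1
          have h3 : f n = n • f 1 := h2
          rw [h3, zsmul_eq_mul, mul_comm]
        refine ⟨f 1, hg, ?_⟩
        intro x y z
        rw [H, hg x, hg y, hg z]
        simp only [T]
        push_cast
        ring
    · right
      refine ⟨f 0, const_of_ne H h0, ?_⟩
      intro x y z
      rw [H, const_of_ne H h0 x, const_of_ne H h0 y, const_of_ne H h0 z]
      simp only [T]
      ring
  · rintro (⟨c, hf, hh⟩ | ⟨c, hf, hh⟩)
    · intro x y z
      rw [hh, hf, hf, hf]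
      simp only [T]
      push_cast
      ring
    · intro x y z
      rw [hh, hf, hf, hf]
      simp only [T]
      ring

end Pool.Agent.Results.MP_993e82_nt.PseudoAutomorphisms
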